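import Pool.Agent.H382L.GapUnif
import Pool.Agent.H382L.GapTail0

/-! # The gaps between the ordinates tend to zero on average (helper748) -/

open Filter Topology Set

namespace Pool.Agent.N748.UG

open SG (ord NZ)
open LG (dlt)

lemma sum_step (m N : ℕ) : ∑ n ∈ Finset.Icc 1 N, (ord (n + m + 1) - ord (n + m)) =
    ord (N + 1 + m) - ord (1 + m) := by
  induction N with
  | zero => simp
  | succ N ih =>
    rw [Finset.sum_Icc_succ_top (by omega), ih]
    have e : N + 1 + m + 1 = N + 1 + 1 + m := by ring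
    rw [e]
    ring

lemma sum_gap (m N : ℕ) : ∑ n ∈ Finset.Icc 1 N, (ord (n + m) - ord n) ≤ m * ord (N + m + 1) := by
  induction m with
  | zero => simp
  | succ m ih =>
    have e : ∀ n : ℕ, ord (n + (m + 1)) - ord n =
        (ord (n + m + 1) - ord (n + m)) + (ord (n + m) - ord n) := by
      intro n
      rw [← add_assoc]
      ring
    simp_rw [e]
    rw [Finset.sum_add_distrib, sum_step]
    have h1 : 0 < ord (1 + m) := SG.ord_pos (by omega)
    have h2 : ord (N + m + 1) ≤ ord (N + (m + 1) + 1) := SG.ord_mono (by omega) (by omega)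
    have h3 : ord (N + 1 + m) ≤ ord (N + (m + 1) + 1) := SG.ord_mono (by omega) (by omega)
    have h4 : (m : ℝ) * ord (N + m + 1) ≤ m * ord (N + (m + 1) + 1) := by gcongr
    push_cast
    linarith

/-- `γ_N = o(N)` -/
theorem ord_small {ε : ℝ} (hε : 0 < ε) : ∃ N0 : ℕ, ∀ N : ℕ, N0 ≤ N → ord N ≤ ε * N := by
  obtain ⟨c, T1, hc, hT1, h⟩ := LG.GapAux.NZ_low
  obtain ⟨T2, hT2⟩ := (Real.tendsto_log_atTop.eventually_ge_atTop
    (3 / (c * ε))).exists_forall_of_atTop
  obtain ⟨N1, hN1⟩ := (SG.ord_tendsto.eventually_ge_atTop (3 * max T1 T2)).exists_forall_of_atTop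
  refine ⟨max N1 1, fun N hN => ?_⟩
  have h1 : 1 ≤ N := (le_max_right _ _).trans hN
  have h2 := hN1 N ((le_max_left _ _).trans hN)
  have h3 : T1 ≤ ord N / 3 := by
    have := le_max_left T1 T2
    linarith
  have h4 : T2 ≤ ord N / 3 := by
    have := le_max_right T1 T2
    linarith
  have h5 := h _ h3
  have h6 : NZ (2 * (ord N / 3)) < N := by
    by_contra hcon
    push Not at hcon
    have h5 : ord N ≤ 2 * (ord N / 3) := (SG.ord_le_iff (by omega) _).mpr hcon
    linarith
  have h7 : (NZ (2 * (ord N / 3)) : ℝ) ≤ N := by exact_mod_cast h6.le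
  have h8 := hT2 _ h4
  have h9 : 0 < ord N / 3 := by linarith
  have h10 : c * (ord N / 3 * (3 / (c * ε))) ≤ N := by
    refine le_trans ?_ (h5.trans h7)
    gcongr
  have h11 : c * (ord N / 3 * (3 / (c * ε))) = ord N / ε := by field_simp
  rw [h11, div_le_iff₀ hε] at h10
  linarith

/-- few long blocks of gaps -/
theorem few_long (m : ℕ) {h ε : ℝ} (hh : 0 < h) (hε : 0 < ε) : ∃ N0 : ℕ, ∀ N : ℕ, N0 ≤ N →
    ({n : ℕ | 1 ≤ n ∧ n ≤ N ∧ h < ord (n + m) - ord n}.ncard : ℝ) ≤ ε * N := by
  classical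
  obtain ⟨N1, hN1⟩ := ord_small (ε := ε * h / (2 * (m + 1))) (by positivity)
  refine ⟨max N1 (m + 1), fun N hN => ?_⟩
  have h1 : N1 ≤ N := (le_max_left _ _).trans hN
  have h2 : m + 1 ≤ N := (le_max_right _ _).trans hN
  have h2' : (m : ℝ) + 1 ≤ N := by exact_mod_cast h2
  have hfin : {n : ℕ | 1 ≤ n ∧ n ≤ N ∧ h < ord (n + m) - ord n}.Finite :=
    (Set.finite_Icc 1 N).subset fun n hn => ⟨hn.1, hn.2.1⟩
  have hset : hfin.toFinset = (Finset.Icc 1 N).filter (fun n => h < ord (n + m) - ord n) := by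
    ext n
    simp only [Set.Finite.mem_toFinset, Set.mem_ofPred_eq, Finset.mem_filter, Finset.mem_Icc]
    tauto
  rw [Set.ncard_eq_toFinset_card _ hfin, hset]
  have h3 : (((Finset.Icc 1 N).filter (fun n => h < ord (n + m) - ord n)).card : ℝ) * h ≤
      ∑ n ∈ Finset.Icc 1 N, (ord (n + m) - ord n) := by
    calc (((Finset.Icc 1 N).filter (fun n => h < ord (n + m) - ord n)).card : ℝ) * h =
        ∑ n ∈ (Finset.Icc 1 N).filter (fun n => h < ord (n + m) - ord n), h := by
          rw [Finset.sum_const, nsmul_eq_mul]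
      _ ≤ ∑ n ∈ (Finset.Icc 1 N).filter (fun n => h < ord (n + m) - ord n),
          (ord (n + m) - ord n) := by
          refine Finset.sum_le_sum fun n hn => ?_
          rw [Finset.mem_filter] at hn
          exact hn.2.le
      _ ≤ _ := by
          refine Finset.sum_le_sum_of_subset_of_nonneg (Finset.filter_subset _ _) ?_
          intro n hn _
          rw [Finset.mem_Icc] at hn
          have := SG.ord_mono hn.1 (by omega : n ≤ n + m)
          linarith
  have h4 := hN1 (N + m + 1) (by omega)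
  have h5 := sum_gap m N
  have hm0 : (0 : ℝ) ≤ m := Nat.cast_nonneg m
  have h6 : (m : ℝ) * ord (N + m + 1) ≤ (m + 1) * (ε * h / (2 * (m + 1)) * (2 * N)) := by
    have h7 : ord (N + m + 1) ≤ ε * h / (2 * (m + 1)) * (2 * N) := by
      refine h4.trans ?_
      gcongr
      push_cast
      linarith
    have h8 : 0 < ord (N + m + 1) := SG.ord_pos (by omega)
    calc (m : ℝ) * ord (N + m + 1) ≤ (m + 1) * ord (N + m + 1) := by nlinarith
      _ ≤ _ := by gcongr
  have h7 : (m + 1) * (ε * h / (2 * (m + 1)) * (2 * N)) = ε * N * h := by field_simp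
  rw [h7] at h6
  exact le_of_mul_le_mul_right ((h3.trans h5).trans h6) hh

/-- the two normalisations of the gap -/
theorem norm_close {n : ℕ} (hn : 1 ≤ n) (h10 : 10 ≤ ord n) {h : ℝ} (hh : h ≤ 1)
    (hg : ord (n + 1) - ord n ≤ h) :
    |dlt n - (ord (n + 1) - ord n) * Real.log (ord n / (2 * Real.pi)) / (2 * Real.pi)| ≤ h := by
  have hpi := Real.pi_gt_three
  have hpi2 := Real.pi_lt_four
  have hx : 0 < ord n := by linarith
  have hxy : ord n ≤ ord (n + 1) := SG.ord_mono hn (by omega)
  have hy : 0 < ord (n + 1) := by linarith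
  have e1 : dlt n - (ord (n + 1) - ord n) * Real.log (ord n / (2 * Real.pi)) / (2 * Real.pi) =
      (ord (n + 1) * (Real.log (ord (n + 1)) - Real.log (ord n)) +
        (ord (n + 1) - ord n) * Real.log (2 * Real.pi)) / (2 * Real.pi) := by
    rw [Real.log_div hx.ne' (by positivity)]
    unfold LG.dlt
    field_simp
    ring
  have h1 : 0 ≤ Real.log (ord (n + 1)) - Real.log (ord n) := by
    have := Real.log_le_log hx hxy
    linarith
  have h2 : Real.log (ord (n + 1)) - Real.log (ord n) ≤ (ord (n + 1) - ord n) / ord n := by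
    rw [← Real.log_div hy.ne' hx.ne']
    refine (Real.log_le_sub_one_of_pos (by positivity)).trans (le_of_eq ?_)
    field_simp
  have h3 : ord (n + 1) * (Real.log (ord (n + 1)) - Real.log (ord n)) ≤
      2 * (ord (n + 1) - ord n) := by
    calc ord (n + 1) * (Real.log (ord (n + 1)) - Real.log (ord n)) ≤
        ord (n + 1) * ((ord (n + 1) - ord n) / ord n) := by gcongr
      _ = (ord (n + 1) / ord n) * (ord (n + 1) - ord n) := by ring
      _ ≤ 2 * (ord (n + 1) - ord n) := by
          apply mul_le_mul_of_nonneg_right _ (by linarith)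
          rw [div_le_iff₀ hx]
          linarith
  have h4 : Real.log (2 * Real.pi) ≤ 3 := by
    have h5 : Real.log (2 * Real.pi) ≤ Real.log (Real.exp 1 ^ 3) := by
      apply Real.log_le_log (by positivity)
      have := Real.exp_one_gt_d9
      have h6 : (2.7 : ℝ) ^ 3 ≤ Real.exp 1 ^ 3 := pow_le_pow_left₀ (by norm_num) (by linarith) 3
      have h7 : (19 : ℝ) ≤ Real.exp 1 ^ 3 := le_trans (by norm_num) h6
      linarith
    rw [Real.log_pow, Real.log_exp, mul_one] at h5
    exact_mod_cast h5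
  have h5 : 0 ≤ Real.log (2 * Real.pi) := Real.log_nonneg (by linarith)
  have h6 : (ord (n + 1) - ord n) * Real.log (2 * Real.pi) ≤ (ord (n + 1) - ord n) * 3 :=
    mul_le_mul_of_nonneg_left h4 (by linarith)
  have h7 : 0 ≤ (ord (n + 1) - ord n) * Real.log (2 * Real.pi) :=
    mul_nonneg (by linarith) h5
  have h8 : 0 ≤ ord (n + 1) * (Real.log (ord (n + 1)) - Real.log (ord n)) :=
    mul_nonneg hy.le h1
  rw [e1, abs_of_nonneg (by positivity), div_le_iff₀ (by positivity)]
  nlinarith

end Pool.Agent.N748.UG
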