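import Pool.Agent.N748.UG.Main

/-! # Small gaps of the zeros next to the zeros where zeta is close to a given function -/

open Complex Filter Topology Set MeasureTheory

namespace Pool.Agent.N748.UG

open R304.UN R304.UP R304.UQ
open SG (ord NZ)
open LG (dlt)

/-- the trapezoid functional -/
noncomputable def trap (K : Set ℂ) (f : ℂ → ℂ) (ε' ε : ℝ) (g : ℂ → ℂ) : ℝ :=
  max 0 (min 1 ((ε - dK K f g) / (ε - ε')))

lemma trap_nonneg (K : Set ℂ) (f : ℂ → ℂ) (ε' ε : ℝ) (g : ℂ → ℂ) : 0 ≤ trap K f ε' ε g :=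
  le_max_left _ _

lemma trap_le_one (K : Set ℂ) (f : ℂ → ℂ) (ε' ε : ℝ) (g : ℂ → ℂ) : trap K f ε' ε g ≤ 1 :=
  max_le zero_le_one (min_le_left _ _)

theorem trap_fnl {K : Set ℂ} (f : ℂ → ℂ) {ε' ε : ℝ} (hlt : ε' < ε) : Fnl K (trap K f ε' ε) 1 := by
  have hp : 0 < ε - ε' := sub_pos.2 hlt
  refine ⟨fun g => ?_, fun e he => ⟨e * (ε - ε'), by positivity, fun g h hgh => ?_⟩⟩
  · rw [abs_of_nonneg (trap_nonneg _ _ _ _ _)]
    exact trap_le_one _ _ _ _ _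
  · have h1 := dK_le (f := f) (show 0 ≤ e * (ε - ε') by positivity) hgh
    have h2 := dK_le (f := f) (g := h) (h := g) (show 0 ≤ e * (ε - ε') by positivity)
      (fun z hz => by rw [norm_sub_rev]; exact hgh z hz)
    unfold trap
    have h3 : |(ε - dK K f g) / (ε - ε') - (ε - dK K f h) / (ε - ε')| ≤ e := by
      rw [← sub_div, abs_div, abs_of_pos hp, div_le_iff₀ hp, abs_le]
      constructor <;> linarith
    have h4 := abs_max_sub_max_le_abs (min 1 ((ε - dK K f g) / (ε - ε')))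
      (min 1 ((ε - dK K f h) / (ε - ε'))) 0
    have h5 := abs_min_sub_min_le_max 1 ((ε - dK K f g) / (ε - ε')) 1
      ((ε - dK K f h) / (ε - ε'))
    rw [sub_self, abs_zero, max_eq_right (abs_nonneg _)] at h5
    rw [max_comm _ (0 : ℝ), max_comm _ (0 : ℝ)] at h4
    exact h4.trans (h5.trans h3)

lemma trap_pos {K : Set ℂ} {f g : ℂ → ℂ} {ε' ε : ℝ} (hlt : ε' < ε)
    (hne : ∃ d : ℝ, 0 ≤ d ∧ ∀ z ∈ K, ‖g z - f z‖ ≤ d) (h : 0 < trap K f ε' ε g) :
    ∃ δ < ε, ∀ z ∈ K, ‖g z - f z‖ ≤ δ := by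
  unfold trap at h
  rcases lt_max_iff.1 h with h1 | h1
  · exact absurd h1 (lt_irrefl _)
  · have h2 : dK K f g < ε := by
      have h3 := (lt_min_iff.1 h1).2
      have hp : 0 < ε - ε' := sub_pos.2 hlt
      rw [lt_div_iff₀ hp, zero_mul] at h3
      linarith
    obtain ⟨d, ⟨-, hd⟩, hdε⟩ := exists_lt_of_csInf_lt hne h2
    exact ⟨d, hdε, hd⟩

lemma trap_one {K : Set ℂ} {f g : ℂ → ℂ} {ε' ε : ℝ} (hε' : 0 < ε') (hlt : ε' < ε)
    (h : ∃ δ < ε', ∀ z ∈ K, ‖g z - f z‖ ≤ δ) : 1 ≤ trap K f ε' ε g := by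
  obtain ⟨δ, hδ, h1⟩ := h
  have h2 : dK K f g ≤ ε' :=
    csInf_le ⟨0, fun _ h => h.1⟩ ⟨hε'.le, fun z hz => (h1 z hz).trans hδ.le⟩
  unfold trap
  refine le_max_of_le_right (le_min le_rfl ?_)
  rw [one_le_div (sub_pos.2 hlt)]
  linarith

/-- the shifts of zeta are bounded on `K` -/
lemma sh_bdd' {K : Set ℂ} (hK : IsCompact K) (hKs : K ⊆ {z | 1 / 2 < z.re ∧ z.re < 1})
    {f : ℂ → ℂ} {C : ℝ} (hf : ∀ z ∈ K, ‖f z‖ ≤ C) (t : ℝ) :
    ∃ d : ℝ, 0 ≤ d ∧ ∀ z ∈ K, ‖sh t z - f z‖ ≤ d := by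
  obtain ⟨d, hd0, hd⟩ := sh_bdd hK hKs (f := fun _ => 0) continuousOn_const t
  refine ⟨d + |C|, by positivity, fun z hz => ?_⟩
  have h1 := hd z hz
  rw [sub_zero] at h1
  exact (norm_sub_le _ _).trans (add_le_add h1 ((hf z hz).trans (le_abs_self C)))

/-- lower bound of the mean value -/
lemma mean_ge {Φ : (ℂ → ℂ) → ℝ} (hc : Continuous fun t : ℝ => Φ (sh t)) (h0 : ∀ g, 0 ≤ Φ g)
    {E : Set ℝ} (h1 : ∀ t ∈ E, 1 ≤ Φ (sh t)) {D : ℝ}
    (hd : ∃ᶠ X : ℝ in atTop, ENNReal.ofReal (D * X) ≤ volume (E ∩ Icc 0 X)) {m : ℝ}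
    (hm : Tendsto (fun X : ℝ => (∫ t in (0 : ℝ)..X, Φ (sh t)) / X) atTop (𝓝 m)) : D ≤ m := by
  by_contra hcon
  push Not at hcon
  have hev := hm.eventually (eventually_lt_nhds hcon)
  obtain ⟨X, hX1, hX2, hX0⟩ := (hd.and_eventually (hev.and (eventually_gt_atTop 0))).exists
  rw [div_lt_iff₀ hX0, intervalIntegral.integral_of_le hX0.le,
    ← integral_Icc_eq_integral_Ioc] at hX2
  have hi : IntegrableOn (fun t : ℝ => Φ (sh t)) (Icc 0 X) :=
    hc.continuousOn.integrableOn_compact isCompact_Icc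
  set E' : Set ℝ := {t | 1 ≤ Φ (sh t)} with hE'
  have hEm : MeasurableSet E' := (isClosed_le continuous_const hc).measurableSet
  have hsub : E ∩ Icc 0 X ⊆ E' ∩ Icc 0 X := fun t ht => ⟨h1 t ht.1, ht.2⟩
  have hX1' := hX1.trans (measure_mono hsub)
  have hfin : volume (E' ∩ Icc 0 X) ≠ ⊤ := by
    refine ne_top_of_le_ne_top ?_ (measure_mono inter_subset_right)
    rw [Real.volume_Icc]; exact ENNReal.ofReal_ne_top
  have h2 : D * X ≤ ∫ t in Icc 0 X, Φ (sh t) := by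
    calc D * X ≤ (volume (E' ∩ Icc 0 X)).toReal := (ENNReal.ofReal_le_iff_le_toReal hfin).1 hX1'
      _ = ∫ t in E' ∩ Icc 0 X, (1 : ℝ) := by
          rw [setIntegral_const, smul_eq_mul, Measure.real, mul_one]
      _ ≤ ∫ t in E' ∩ Icc 0 X, Φ (sh t) :=
          setIntegral_mono_on (integrableOn_const hfin) (hi.mono_set inter_subset_right)
            (hEm.inter measurableSet_Icc) fun t ht => ht.1
      _ ≤ ∫ t in Icc 0 X, Φ (sh t) :=
          setIntegral_mono_set hi (Eventually.of_forall fun t => h0 _)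
            inter_subset_right.eventuallyLE
  linarith

/-- **small gaps at the zeros where `ζ` is close to a given function** -/
theorem univ_small (hRH : RiemannHypothesis) {β c : ℝ} (hβ : 0 < β) (hc : β < c)
    (hV : 1 < R482.GB.VV β) :
    ∃ κ : ℝ, 0 < κ ∧ ∀ K : Set ℂ, IsCompact K → K ⊆ {z | 1 / 2 < z.re ∧ z.re < 1} →
      ∀ (f : ℂ → ℂ) (ε' ε : ℝ), 0 < ε' → ε' < ε → ∀ D : ℝ, 0 ≤ D →
      (∃ᶠ X : ℝ in atTop, ENNReal.ofReal (D * X) ≤ volume (SS ε' K f ∩ Icc 0 X)) →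
      ∀ η : ℝ, 0 < η → ∃ N0 : ℕ, ∀ N : ℕ, N0 ≤ N →
        (κ * D ^ 2 - η) * N ≤
          ({n : ℕ | 1 ≤ n ∧ n ≤ N ∧ dlt n ≤ c ∧ ord n ∈ SS ε K f}.ncard : ℝ) := by
  classical
  obtain ⟨κ, hκ, hsm⟩ := small_fnl hRH hβ hV
  obtain ⟨c1, hc1, hidx⟩ := to_idx hβ hc
  refine ⟨c1 * κ, by positivity, fun K hK hKs f ε' ε hε' hlt D hD0 hD η hη => ?_⟩
  rcases le_or_gt (c1 * κ * D ^ 2) η with hle | hgt
  · refine ⟨0, fun N _ => le_trans ?_ (Nat.cast_nonneg _)⟩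
    exact mul_nonpos_of_nonpos_of_nonneg (by linarith) (Nat.cast_nonneg _)
  have hne : (SS ε' K f).Nonempty := by
    rw [Set.nonempty_iff_ne_empty]
    intro hemp
    obtain ⟨X, hX1, hX0⟩ := (hD.and_eventually (eventually_gt_atTop 0)).exists
    rw [hemp, empty_inter, measure_empty, nonpos_iff_eq_zero, ENNReal.ofReal_eq_zero] at hX1
    have : D ≤ 0 := by
      by_contra h
      push Not at h
      nlinarith [mul_pos h hX0]
    have hD' : D = 0 := le_antisymm this hD0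
    rw [hD'] at hgt
    simp at hgt
    linarith
  obtain ⟨t0, ht0⟩ := hne
  obtain ⟨Cf, hCf0, hCf⟩ := bounded_of_mem hK hKs ht0
  have hF := trap_fnl (K := K) f hlt
  obtain ⟨m, hm⟩ := mean_exists hK hKs hF
  have hDm : D ≤ m := mean_ge (sh_cont hK hKs hF) (trap_nonneg K f ε' ε)
    (fun t ht => trap_one hε' hlt ht) hD hm
  obtain ⟨T0, hT0, h⟩ := hsm K hK hKs _ hF (trap_nonneg K f ε' ε) m hm (η / c1) (by positivity)
  have hA : 0 ≤ κ * m ^ 2 - η / c1 := by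
    rw [sub_nonneg, div_le_iff₀ hc1]
    have h1 : D ^ 2 ≤ m ^ 2 := pow_le_pow_left₀ hD0 hDm 2
    have h2 : c1 * κ * D ^ 2 ≤ c1 * κ * m ^ 2 := by gcongr
    linarith
  obtain ⟨N0, hN0⟩ := hidx _ T0 hA hT0 (fun n => trap K f ε' ε (sh (ord n)))
    (fun n => trap_nonneg _ _ _ _ _) h
  refine ⟨N0, fun N hN => ?_⟩
  have hfin : {n : ℕ | 1 ≤ n ∧ n ≤ N ∧ dlt n ≤ c ∧ ord n ∈ SS ε K f}.Finite :=
    (Set.finite_Icc 1 N).subset fun n hn => ⟨hn.1, hn.2.1⟩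
  have h3 : (c1 * κ * D ^ 2 - η) * N ≤ c1 * (κ * m ^ 2 - η / c1) * N := by
    apply mul_le_mul_of_nonneg_right _ (Nat.cast_nonneg _)
    have h1 : D ^ 2 ≤ m ^ 2 := pow_le_pow_left₀ hD0 hDm 2
    have h2 : c1 * κ * D ^ 2 ≤ c1 * κ * m ^ 2 := by gcongr
    have h4 : c1 * (κ * m ^ 2 - η / c1) = c1 * κ * m ^ 2 - η := by field_simp
    rw [h4]
    linarith
  refine h3.trans ((hN0 N hN).trans ?_)
  rw [Set.ncard_eq_toFinset_card _ hfin]
  calc ∑ n ∈ (Finset.Icc 1 N).filter (fun n => dlt n ≤ c), trap K f ε' ε (sh (ord n)) ≤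
      ∑ n ∈ (Finset.Icc 1 N).filter (fun n => dlt n ≤ c),
        (if ord n ∈ SS ε K f then (1 : ℝ) else 0) := by
        refine Finset.sum_le_sum fun n _ => ?_
        split_ifs with h1
        · exact trap_le_one _ _ _ _ _
        · by_contra hcon
          push Not at hcon
          exact h1 (trap_pos hlt (sh_bdd' hK hKs hCf _) hcon)
    _ = ((((Finset.Icc 1 N).filter (fun n => dlt n ≤ c)).filter
        (fun n => ord n ∈ SS ε K f)).card : ℝ) := by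
        rw [Finset.sum_ite, Finset.sum_const_zero, add_zero, Finset.sum_const, nsmul_eq_mul,
          mul_one]
    _ ≤ (hfin.toFinset.card : ℝ) := by
        refine Nat.cast_le.2 (Finset.card_le_card fun n hn => ?_)
        rw [Finset.mem_filter, Finset.mem_filter, Finset.mem_Icc] at hn
        rw [Set.Finite.mem_toFinset]
        exact ⟨hn.1.1.1, hn.1.1.2, hn.1.2, hn.2⟩

end Pool.Agent.N748.UG
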