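import Pool.Agent.N748.UG.Few
import Pool.Agent.N748.UG.Fin
import Pool.Agent.R304.UG.Stab
import Pool.Agent.R321.FA17

/-! # Properties of almost all runs of indices, near the zeros in a given set (helper748) -/

open Complex Filter Topology Set MeasureTheory

namespace Pool.Agent.N748.UG

open SP ZU H370 H370.A2 H370.A3 H370.AS H295SI TH803TW TH803UC R304.UN R304.UP R304.UQ R304.UG
open SG (ord NZ)
open LG (dlt)

/-- the property holds somewhere in almost all runs of indices -/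
def Runs (P : ℕ → Prop) : Prop := ∀ ε : ℝ, 0 < ε → ∃ m N0 : ℕ, ∀ N : ℕ, N0 ≤ N →
  ({n : ℕ | 1 ≤ n ∧ n ≤ N ∧ ∀ i < m, ¬ P (n + i)}.ncard : ℝ) ≤ ε * N

/-- few ordinates in `A` have points near them outside `B` -/
def Stb (A B : Set ℝ) : Prop := ∀ η : ℝ, 0 < η → ∃ h : ℝ, 0 < h ∧ ∃ N0 : ℕ, ∀ N : ℕ, N0 ≤ N →
  ({n : ℕ | 1 ≤ n ∧ n ≤ N ∧ (ord n ∈ A ∧ ∃ t' : ℝ, |t' - ord n| ≤ h ∧ t' ∉ B)}.ncard : ℝ) ≤ η * N

lemma fin_le (N : ℕ) (P : ℕ → Prop) : {n : ℕ | 1 ≤ n ∧ n ≤ N ∧ P n}.Finite :=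
  (Set.finite_Icc 1 N).subset fun _ hn => ⟨hn.1, hn.2.1⟩

/-- from the dyadic counts of zeros to indices -/
theorem idx_of_NU (hRH : RiemannHypothesis) : ∃ C : ℝ, 0 < C ∧ ∀ (P : ℝ → Prop) (ε : ℝ), 0 < ε →
    (∃ T0 : ℝ, ∀ T : ℝ, T0 ≤ T →
      NU riemannZeta T (2 * T) P ≤ ε * (NN riemannZeta T (2 * T) : ℝ)) →
    ∃ N0 : ℕ, ∀ N : ℕ, N0 ≤ N → ({n : ℕ | 1 ≤ n ∧ n ≤ N ∧ P (ord n)}.ncard : ℝ) ≤ C * ε * N := by
  classical
  obtain ⟨C, hC, h⟩ := R321.FA.all_of_block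
  refine ⟨C, hC, fun P ε hε hT => h (fun n => P (ord n)) ε hε ?_⟩
  obtain ⟨T0, hT0⟩ := hT
  obtain ⟨T3, hT3, hN⟩ := R482.GB.NN_two
  refine ⟨2 * max T0 (max T3 10), fun T hT => ?_⟩
  obtain ⟨X, hX⟩ : ∃ X, X = 3 / 4 * T := ⟨_, rfl⟩
  have hm : max T0 (max T3 10) ≤ X := by
    have : (10 : ℝ) ≤ max T0 (max T3 10) := (le_max_right _ _).trans (le_max_right _ _)
    rw [hX]; linarith
  have hX0 : T0 ≤ X := (le_max_left _ _).trans hm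
  have hX3 : T3 ≤ X := ((le_max_left _ _).trans (le_max_right _ _)).trans hm
  have hX10 : 10 ≤ X := ((le_max_right _ _).trans (le_max_right _ _)).trans hm
  have hT10 : 10 ≤ T := by rw [hX] at hX10; linarith
  have b1 := hT0 X hX0
  have b2 := (hN X hX3).2
  have h1 : NU riemannZeta X (2 * X) P =
      ∑ s ∈ Zf riemannZeta X (2 * X), (mult riemannZeta s : ℝ) * (if P s.im then 1 else 0) := by
    unfold NU
    rw [Finset.sum_filter]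
    refine Finset.sum_congr rfl fun s _ => ?_
    split_ifs <;> simp
  rw [h1, H177.Lat.sum_conv hRH (by linarith : (1 : ℝ) ≤ X) (fun t => if P t then (1 : ℝ) else 0),
    ← Finset.sum_filter, Finset.sum_const, nsmul_eq_mul, mul_one] at b1
  have hfin : {n : ℕ | 1 ≤ n ∧ T ≤ ord n ∧ ord n ≤ 3 / 2 * T ∧ P (ord n)}.Finite :=
    LG.GapAux.fin_ord (3 / 2 * T) _ (fun n hn => ⟨hn.1, hn.2.2.1⟩)
  have hsub : hfin.toFinset ⊆ (Finset.Ioc (NZ X) (NZ (2 * X))).filter (fun n => P (ord n)) := by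
    intro n hn
    rw [Set.Finite.mem_toFinset] at hn
    obtain ⟨a1, a2, a3, a4⟩ := hn
    rw [Finset.mem_filter, Finset.mem_Ioc]
    refine ⟨⟨?_, ?_⟩, a4⟩
    · by_contra hcon
      push Not at hcon
      have := (SG.ord_le_iff a1 X).mpr hcon
      rw [hX] at this
      linarith
    · apply (SG.ord_le_iff a1 _).mp
      rw [hX]
      linarith
  rw [Set.ncard_eq_toFinset_card _ hfin]
  have hL : Real.log X ≤ Real.log T := Real.log_le_log (by linarith) (by rw [hX]; linarith)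
  have hL0 : 0 ≤ Real.log X := Real.log_nonneg (by linarith)
  calc (hfin.toFinset.card : ℝ) ≤ (((Finset.Ioc (NZ X) (NZ (2 * X))).filter
        (fun n => P (ord n))).card : ℝ) := by exact_mod_cast Finset.card_le_card hsub
    _ ≤ ε * (X * Real.log X) := b1.trans (by gcongr)
    _ ≤ ε * (T * Real.log T) := by
        have : X ≤ T := by rw [hX]; linarith
        gcongr

/-- the sets of universality are stable -/
theorem stb_univ (hRH : RiemannHypothesis) {K : Set ℂ} (hK : IsCompact K)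
    (hKs : K ⊆ {z | 1 / 2 < z.re ∧ z.re < 1}) (f : ℂ → ℂ) {ε' ε : ℝ} (hlt : ε' < ε) :
    Stb (SS ε' K f) (SS ε K f) := by
  intro η hη
  obtain ⟨C, hC, h⟩ := idx_of_NU hRH
  obtain ⟨δ, hδ0, hδ1, T0, hT0, hst⟩ := stab hK hKs f hlt (η := η / C) (by positivity)
  obtain ⟨N0, hN0⟩ := h (fun t => t ∈ SS ε' K f ∧ unst δ ε K f t) (η / C) (by positivity)
    ⟨T0, hst⟩
  refine ⟨δ, hδ0, N0, fun N hN => (hN0 N hN).trans (le_of_eq ?_)⟩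
  field_simp

/-- the Bohr sets are stable -/
theorem stb_bohr {k : ℕ} (α : Fin k → ℝ) {V W : Set (UnitAddTorus (Fin k))} (hW : IsOpen W)
    (hV : closure V ⊆ W) : Stb {t | torusPt α t ∈ V} {t | torusPt α t ∈ W} := by
  intro η hη
  obtain ⟨h, hh0, hh1, hth⟩ := torus_thick α hW hV
  refine ⟨h, hh0, 0, fun N _ => ?_⟩
  have he : {n : ℕ | 1 ≤ n ∧ n ≤ N ∧ (ord n ∈ {t | torusPt α t ∈ V} ∧
      ∃ t' : ℝ, |t' - ord n| ≤ h ∧ t' ∉ {t | torusPt α t ∈ W})} = ∅ := by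
    rw [Set.eq_empty_iff_forall_notMem]
    rintro n ⟨-, -, a1, t', a2, a3⟩
    exact a3 (hth (ord n) t' a2 a1)
  rw [he, Set.ncard_empty]
  simp only [Nat.cast_zero]
  positivity

/-- **almost every index with ordinate in `A` begins a run which contains an index with the
property and ordinate in `B`** -/
theorem runs_in {P : ℕ → Prop} (hP : Runs P) {A B : Set ℝ} (hst : Stb A B) {η : ℝ} (hη : 0 < η) :
    ∃ m N0 : ℕ, ∀ N : ℕ, N0 ≤ N →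
      ({n : ℕ | 1 ≤ n ∧ n ≤ N ∧ (ord n ∈ A ∧ ∀ i < m, ¬ (P (n + i) ∧ ord (n + i) ∈ B))}.ncard : ℝ)
        ≤ η * N := by
  obtain ⟨m, N1, h1⟩ := hP (η / 3) (by positivity)
  obtain ⟨h, hh, N2, h2⟩ := hst (η / 3) (by positivity)
  obtain ⟨N3, h3⟩ := few_long m hh (show 0 < η / 3 by positivity)
  refine ⟨m, max N1 (max N2 N3), fun N hN => ?_⟩
  have k1 := h1 N ((le_max_left _ _).trans hN)
  have k2 := h2 N (((le_max_left _ _).trans (le_max_right _ _)).trans hN)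
  have k3 := h3 N (((le_max_right _ _).trans (le_max_right _ _)).trans hN)
  have hsub : {n : ℕ | 1 ≤ n ∧ n ≤ N ∧ (ord n ∈ A ∧ ∀ i < m, ¬ (P (n + i) ∧ ord (n + i) ∈ B))} ⊆
      {n : ℕ | 1 ≤ n ∧ n ≤ N ∧ ∀ i < m, ¬ P (n + i)} ∪
      ({n : ℕ | 1 ≤ n ∧ n ≤ N ∧ (ord n ∈ A ∧ ∃ t' : ℝ, |t' - ord n| ≤ h ∧ t' ∉ B)} ∪
        {n : ℕ | 1 ≤ n ∧ n ≤ N ∧ h < ord (n + m) - ord n}) := by
    rintro n ⟨a1, a2, a3, a4⟩
    by_cases c1 : ∀ i < m, ¬ P (n + i)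
    · exact Or.inl ⟨a1, a2, c1⟩
    by_cases c2 : h < ord (n + m) - ord n
    · exact Or.inr (Or.inr ⟨a1, a2, c2⟩)
    refine Or.inr (Or.inl ⟨a1, a2, a3, ?_⟩)
    push Not at c1 c2
    obtain ⟨i, hi, hPi⟩ := c1
    refine ⟨ord (n + i), ?_, fun hB => a4 i hi ⟨hPi, hB⟩⟩
    have g1 := SG.ord_mono a1 (by omega : n ≤ n + i)
    have g2 := SG.ord_mono (by omega : 1 ≤ n + i) (by omega : n + i ≤ n + m)
    rw [abs_of_nonneg (by linarith)]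
    linarith
  have hc := Set.ncard_le_ncard hsub ((fin_le N _).union ((fin_le N _).union (fin_le N _)))
  have hc2 := hc.trans ((Set.ncard_union_le _ _).trans
    (Nat.add_le_add_left (Set.ncard_union_le _ _) _))
  have hcr : ({n : ℕ | 1 ≤ n ∧ n ≤ N ∧ (ord n ∈ A ∧ ∀ i < m, ¬ (P (n + i) ∧
      ord (n + i) ∈ B))}.ncard : ℝ) ≤
      ({n : ℕ | 1 ≤ n ∧ n ≤ N ∧ ∀ i < m, ¬ P (n + i)}.ncard : ℝ) +
      (({n : ℕ | 1 ≤ n ∧ n ≤ N ∧ (ord n ∈ A ∧ ∃ t' : ℝ, |t' - ord n| ≤ h ∧ t' ∉ B)}.ncard : ℝ) +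
        ({n : ℕ | 1 ≤ n ∧ n ≤ N ∧ h < ord (n + m) - ord n}.ncard : ℝ)) := by exact_mod_cast hc2
  linarith

/-- each index is reached from at most `m` indices -/
lemma card_shift (m N : ℕ) (Q : ℕ → Prop) :
    {n : ℕ | 1 ≤ n ∧ n ≤ N ∧ ∃ i < m, Q (n + i)}.ncard ≤
      m * {n : ℕ | 1 ≤ n ∧ n ≤ N + m ∧ Q n}.ncard := by
  classical
  have hsub : {n : ℕ | 1 ≤ n ∧ n ≤ N ∧ ∃ i < m, Q (n + i)} ⊆
      ⋃ i ∈ Finset.range m, {n : ℕ | 1 ≤ n ∧ n ≤ N ∧ Q (n + i)} := by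
    rintro n ⟨a1, a2, i, hi, hQ⟩
    simp only [Set.mem_iUnion]
    exact ⟨i, Finset.mem_range.2 hi, a1, a2, hQ⟩
  have hfin : (⋃ i ∈ Finset.range m, {n : ℕ | 1 ≤ n ∧ n ≤ N ∧ Q (n + i)}).Finite :=
    Set.Finite.biUnion (Finset.finite_toSet _) fun i _ => fin_le N _
  refine (Set.ncard_le_ncard hsub hfin).trans ?_
  refine (Finset.set_ncard_biUnion_le _ _).trans ?_
  refine (Finset.sum_le_card_nsmul _ _ {n : ℕ | 1 ≤ n ∧ n ≤ N + m ∧ Q n}.ncard ?_).trans ?_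
  · intro i hi
    rw [Finset.mem_range] at hi
    refine Set.ncard_le_ncard_of_injOn (fun n => n + i) ?_ ?_ (fin_le _ _)
    · rintro n ⟨a1, a2, a3⟩
      exact ⟨by omega, by omega, a3⟩
    · intro n _ n' _ hnn
      simpa using hnn
  · rw [Finset.card_range, smul_eq_mul]

/-- **positive proportion** -/
theorem pos_in {P : ℕ → Prop} (hP : Runs P) {A B : Set ℝ} (hst : Stb A B) {d : ℝ} (hd : 0 < d)
    (hA : ∃ N0 : ℕ, ∀ N : ℕ, N0 ≤ N → d * N ≤ ({n : ℕ | 1 ≤ n ∧ n ≤ N ∧ ord n ∈ A}.ncard : ℝ)) :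
    ∃ κ : ℝ, 0 < κ ∧ ∃ N0 : ℕ, ∀ N : ℕ, N0 ≤ N →
      κ * N ≤ ({n : ℕ | 1 ≤ n ∧ n ≤ N ∧ (P n ∧ ord n ∈ B)}.ncard : ℝ) := by
  obtain ⟨m, N1, h1⟩ := runs_in hP hst (show 0 < d / 2 by positivity)
  obtain ⟨N2, h2⟩ := hA
  refine ⟨d / (4 * (m + 1)), by positivity, max (N1 + N2 + m) (2 * m), fun N hN => ?_⟩
  have hNa : N1 + N2 + m ≤ N := (le_max_left _ _).trans hN
  have hNb : 2 * m ≤ N := (le_max_right _ _).trans hN
  have k1 := h1 (N - m) (by omega)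
  have k2 := h2 (N - m) (by omega)
  have k3 := card_shift m (N - m) (fun n => P n ∧ ord n ∈ B)
  rw [Nat.sub_add_cancel (by omega : m ≤ N)] at k3
  have hsub : {n : ℕ | 1 ≤ n ∧ n ≤ N - m ∧ ord n ∈ A} ⊆
      {n : ℕ | 1 ≤ n ∧ n ≤ N - m ∧ (ord n ∈ A ∧ ∀ i < m, ¬ (P (n + i) ∧ ord (n + i) ∈ B))} ∪
      {n : ℕ | 1 ≤ n ∧ n ≤ N - m ∧ ∃ i < m, (P (n + i) ∧ ord (n + i) ∈ B)} := by
    rintro n ⟨a1, a2, a3⟩
    by_cases c : ∃ i < m, (P (n + i) ∧ ord (n + i) ∈ B)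
    · exact Or.inr ⟨a1, a2, c⟩
    · push Not at c
      refine Or.inl ⟨a1, a2, a3, fun i hi hc => c i hi hc.1 hc.2⟩
  have hc := (Set.ncard_le_ncard hsub ((fin_le _ _).union (fin_le _ _))).trans
    (Set.ncard_union_le _ _)
  have hc2 := hc.trans (Nat.add_le_add_left k3 _)
  have hcr : ({n : ℕ | 1 ≤ n ∧ n ≤ N - m ∧ ord n ∈ A}.ncard : ℝ) ≤
      ({n : ℕ | 1 ≤ n ∧ n ≤ N - m ∧ (ord n ∈ A ∧ ∀ i < m, ¬ (P (n + i) ∧
        ord (n + i) ∈ B))}.ncard : ℝ) +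
      m * ({n : ℕ | 1 ≤ n ∧ n ≤ N ∧ (P n ∧ ord n ∈ B)}.ncard : ℝ) := by exact_mod_cast hc2
  set G : ℝ := ({n : ℕ | 1 ≤ n ∧ n ≤ N ∧ (P n ∧ ord n ∈ B)}.ncard : ℝ) with hG
  have hG0 : 0 ≤ G := Nat.cast_nonneg _
  have hcast : ((N - m : ℕ) : ℝ) = N - m := by
    rw [Nat.cast_sub (by omega)]
  rw [hcast] at k1 k2
  have hNm : (N : ℝ) / 2 ≤ N - m := by
    have : ((2 * m : ℕ) : ℝ) ≤ N := by exact_mod_cast hNb
    push_cast at this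
    linarith
  have k4 : d / 2 * ((N : ℝ) - m) ≤ m * G := by linarith
  have k5 : d / 4 * N ≤ (m + 1) * G := by
    have : d / 2 * ((N : ℝ) / 2) ≤ d / 2 * (N - m) := by gcongr
    linarith
  rw [div_mul_eq_mul_div, div_le_iff₀ (by positivity)]
  linarith

end Pool.Agent.N748.UG
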