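import Pool.Agent.R482.GB.Fin
import Pool.Agent.R304.UQ.Ord
import Pool.Agent.R304.UQ.Bump
import Pool.Agent.H177R3.LatA

/-! # Small gaps of the zeros and the values of zeta in the strip (helper748) -/

open Complex Filter Topology Set MeasureTheory

namespace Pool.Agent.N748.UG

open SP ZU H370 H370.A2 H370.A3 H370.AS H295SI TH803TW TH803UC R304.UN R304.UP R304.UQ R482.GB
open SG (ord NZ zmult ZS)
open LG (dlt)

/-- from dyadic blocks to indices -/
theorem to_idx {β c : ℝ} (hβ : 0 < β) (hc : β < c) : ∃ c1 : ℝ, 0 < c1 ∧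
    ∀ A T1 : ℝ, 0 ≤ A → 10 ≤ T1 → ∀ w : ℕ → ℝ, (∀ n, 0 ≤ w n) →
    (∀ T : ℝ, T1 ≤ T → A * (T * Real.log T) ≤
      ∑ n ∈ (EE_finite T (2 * T) (2 * Real.pi * β / Real.log T)).toFinset, w n) →
    ∃ N0 : ℕ, ∀ N : ℕ, N0 ≤ N →
      c1 * A * N ≤ ∑ n ∈ (Finset.Icc 1 N).filter (fun n => dlt n ≤ c), w n := by
  classical
  obtain ⟨C, T2, hC, hT2, h2⟩ := LG.GapAux.NZ_up
  refine ⟨1 / (3 * C), by positivity, fun A T1 hA hT1 w hw h1 => ?_⟩
  obtain ⟨T3, hT3⟩ := (Real.tendsto_log_atTop.eventually_ge_atTop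
    (β * (Real.log 2 + 1) / (c - β))).exists_forall_of_atTop
  set X : ℝ := max T1 (max T2 T3) with hX
  have hX1 : T1 ≤ X := le_max_left _ _
  have hX2 : T2 ≤ X := (le_max_left _ _).trans (le_max_right _ _)
  have hX3 : T3 ≤ X := (le_max_right _ _).trans (le_max_right _ _)
  refine ⟨NZ (3 * X) + 1, fun N hN => ?_⟩
  have hN1 : 1 ≤ N := by omega
  have hbig : 3 * X < ord N := by
    by_contra hcon
    push Not at hcon
    have := (SG.ord_le_iff hN1 (3 * X)).mp hcon
    omega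
  set T : ℝ := ord N / 3 with hT
  have hTX : X ≤ T := by rw [hT]; linarith
  have hT10 : 10 ≤ T := by linarith
  have hTpos : 0 < T := by linarith
  have hL0 : 0 < Real.log T := Real.log_pos (by linarith)
  have hNle : (N : ℝ) ≤ 3 * C * (T * Real.log T) := by
    have g1 : N ≤ NZ (2 * (3 / 2 * T)) := by
      apply (SG.ord_le_iff hN1 _).mp
      rw [hT]
      apply le_of_eq
      ring
    have g2 := h2 (3 / 2 * T) (by linarith)
    have g3 : (N : ℝ) ≤ NZ (2 * (3 / 2 * T)) := by exact_mod_cast g1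
    have g4 : Real.log (3 / 2 * T) ≤ 2 * Real.log T := by
      have : Real.log (3 / 2 * T) ≤ Real.log (T ^ 2) := Real.log_le_log (by positivity) (by nlinarith)
      rw [Real.log_pow] at this
      push_cast at this
      exact this
    calc (N : ℝ) ≤ C * (3 / 2 * T * Real.log (3 / 2 * T)) := g3.trans g2
      _ ≤ C * (3 / 2 * T * (2 * Real.log T)) := by gcongr
      _ = _ := by ring
  have hLc : β * (Real.log 2 + 1) ≤ (c - β) * Real.log T := by
    have := hT3 T (hX3.trans hTX)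
    rw [div_le_iff₀ (by linarith)] at this
    linarith
  calc 1 / (3 * C) * A * N ≤ 1 / (3 * C) * A * (3 * C * (T * Real.log T)) := by gcongr
    _ = A * (T * Real.log T) := by field_simp
    _ ≤ _ := h1 T (hX1.trans hTX)
    _ ≤ _ := by
      apply Finset.sum_le_sum_of_subset_of_nonneg _ fun _ _ _ => hw _
      intro n hn
      rw [Set.Finite.mem_toFinset] at hn
      rw [Finset.mem_filter, Finset.mem_Icc]
      refine ⟨⟨hn.1, ?_⟩, dlt_le hT10 hβ hLc hn⟩
      by_contra hcon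
      push Not at hcon
      have g1 := SG.ord_mono hN1 (by omega : N ≤ n + 1)
      have g2 := hn.2.2.1
      rw [hT] at g2
      have : 0 < ord N := by linarith
      linarith

/-- the indices of the block -/
lemma EE_sub {T ρ : ℝ} : (EE_finite T (2 * T) ρ).toFinset ⊆ Finset.Ioc (NZ T) (NZ (2 * T)) := by
  intro n hn
  rw [Set.Finite.mem_toFinset] at hn
  obtain ⟨a1, a2, a3, a4⟩ := hn
  rw [Finset.mem_Ioc]
  constructor
  · by_contra hcon
    push Not at hcon
    have := (SG.ord_le_iff a1 T).mpr hcon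
    linarith
  · have h6 : ord n ≤ 2 * T := (SG.ord_mono a1 (by omega)).trans a3
    exact (SG.ord_le_iff a1 _).mp h6

lemma card_Ioc_NZ {T : ℝ} (hT : 1 ≤ T) :
    ((Finset.Ioc (NZ T) (NZ (2 * T))).card : ℝ) = (NN riemannZeta T (2 * T) : ℝ) := by
  rw [Nat.card_Ioc, NZ_add hT (by linarith : T ≤ 2 * T), Nat.add_sub_cancel_left,
    NN_Zf good_zeta hT, Nat.cast_sum]

open Classical in
/-- the indices of the block with ordinate in a given set -/
lemma card_bad (hRH : RiemannHypothesis) {T ρ : ℝ} (hT : 1 ≤ T) (P : ℝ → Prop) :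
    ((((EE_finite T (2 * T) ρ).toFinset).filter (fun n => P (ord n))).card : ℝ) ≤
      NU riemannZeta T (2 * T) P := by
  have h1 : NU riemannZeta T (2 * T) P =
      ∑ s ∈ Zf riemannZeta T (2 * T), (mult riemannZeta s : ℝ) * (if P s.im then 1 else 0) := by
    unfold NU
    rw [Finset.sum_filter]
    refine Finset.sum_congr rfl fun s _ => ?_
    split_ifs <;> simp
  rw [h1, H177.Lat.sum_conv hRH hT (fun t => if P t then (1 : ℝ) else 0), ← Finset.sum_filter,
    Finset.sum_const, nsmul_eq_mul, mul_one]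
  exact_mod_cast Finset.card_le_card (Finset.filter_subset_filter _ EE_sub)

/-- **small gaps and functionals, dyadic form** -/
theorem small_fnl (hRH : RiemannHypothesis) {β : ℝ} (hβ : 0 < β) (hV : 1 < R482.GB.VV β) :
    ∃ κ : ℝ, 0 < κ ∧ ∀ K : Set ℂ, IsCompact K → K ⊆ {z | 1 / 2 < z.re ∧ z.re < 1} →
      ∀ Φ : (ℂ → ℂ) → ℝ, Fnl K Φ 1 → (∀ g, 0 ≤ Φ g) → ∀ m : ℝ,
      Tendsto (fun X : ℝ => (∫ t in (0 : ℝ)..X, Φ (sh t)) / X) atTop (𝓝 m) →
      ∀ η : ℝ, 0 < η → ∃ T0 : ℝ, 10 ≤ T0 ∧ ∀ T : ℝ, T0 ≤ T →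
        (κ * m ^ 2 - η) * (T * Real.log T) ≤
          ∑ n ∈ (EE_finite T (2 * T) (2 * Real.pi * β / Real.log T)).toFinset, Φ (sh (ord n)) := by
  classical
  obtain ⟨κ, hκ, hw⟩ := small_w hRH hβ hV
  refine ⟨κ, hκ, fun K hK hKs Φ hΦ hΦ0 m hm η hη => ?_⟩
  have hsum0 : ∀ T : ℝ, 0 ≤ ∑ n ∈ (EE_finite T (2 * T) (2 * Real.pi * β / Real.log T)).toFinset,
      Φ (sh (ord n)) := fun T => Finset.sum_nonneg fun n _ => hΦ0 _
  rcases le_or_gt (κ * m ^ 2) η with hle | hgt
  · refine ⟨10, le_rfl, fun T hT => ?_⟩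
    have h1 : 0 ≤ T * Real.log T := by
      have : 0 ≤ Real.log T := Real.log_nonneg (by linarith)
      nlinarith
    nlinarith [hsum0 T, mul_nonneg (sub_nonneg.2 hle) h1]
  have hm0 : 0 ≤ m := by
    refine ge_of_tendsto hm ?_
    filter_upwards [eventually_gt_atTop 0] with X hX
    exact div_nonneg (intervalIntegral.integral_nonneg hX.le fun t _ => hΦ0 _) hX.le
  have hmpos : 0 < m := by
    rcases hm0.eq_or_lt with h | h
    · rw [← h] at hgt
      simp at hgt
      linarith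
    · exact h
  have hΦ1 : ∀ g, Φ g ≤ 1 := fun g => (le_abs_self _).trans (hΦ.bdd g)
  have hm1 : m ≤ 1 := by
    refine le_of_tendsto hm ?_
    filter_upwards [eventually_gt_atTop 0] with X hX
    rw [div_le_one hX]
    have h1 := intervalIntegral.norm_integral_le_of_norm_le_const (a := 0) (b := X)
      (f := fun t => Φ (sh t)) (C := 1) (fun t _ => hΦ.bdd (sh t))
    rw [one_mul, sub_zero, abs_of_pos hX] at h1
    exact (le_abs_self _).trans h1
  obtain ⟨C, T1, hC, hT1, hfew⟩ := few_zeros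
  obtain ⟨ε1, hε1⟩ : ∃ x, x = min (m / 2) (η / (8 * (κ + 1))) := ⟨_, rfl⟩
  have hε10 : 0 < ε1 := by rw [hε1]; positivity
  have hε1a : ε1 ≤ m / 2 := by rw [hε1]; exact min_le_left _ _
  have hε1b : ε1 * (8 * (κ + 1)) ≤ η := by
    have : ε1 ≤ η / (8 * (κ + 1)) := by rw [hε1]; exact min_le_right _ _
    rwa [le_div_iff₀ (by positivity)] at this
  obtain ⟨M, g, Bd, q1, q2, q3, X0, hX0, q4⟩ := approxm hK hKs hΦ hm (ε := ε1)
    (η := η / (8 * C)) hε10 (by positivity)
  set F : C(UnitAddTorus (Fin (pr M).card), ℝ) := ⟨fun x => max (g x) 0, by fun_prop⟩ with hF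
  have hFa : ∀ x, F x = max (g x) 0 := fun x => rfl
  have hF0 : ∀ x, 0 ≤ F x := fun x => by rw [hFa]; exact le_max_right _ _
  have hF1 : ∀ x, F x ≤ 1 := fun x => by
    rw [hFa]
    exact max_le ((le_abs_self _).trans (q2 x)) zero_le_one
  have hgF : ∫ x, g x ∂(haarT (pr M).card) ≤ ∫ x, F x ∂(haarT (pr M).card) := by
    refine integral_mono ?_ ?_ fun x => ?_
    · exact (map_continuous g).integrable_of_hasCompactSupport (HasCompactSupport.of_compactSpace _)
    · exact (map_continuous F).integrable_of_hasCompactSupport (HasCompactSupport.of_compactSpace _)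
    · rw [hFa]
      exact le_max_left _ _
  have hFm : m - ε1 ≤ ∫ x, F x ∂(haarT (pr M).card) := by
    have := (abs_le.1 q3).2
    linarith
  obtain ⟨T2, hT2, hsm⟩ := hw _ (al M) (al_indep M) F hF0 hF1 (by linarith)
  obtain ⟨T3, hT3, hN⟩ := NN_two
  refine ⟨max (max T1 T2) (max T3 X0), (hT1.trans (le_max_left _ _)).trans (le_max_left _ _),
    fun T hT => ?_⟩
  have hTT1 : T1 ≤ T := ((le_max_left _ _).trans (le_max_left _ _)).trans hT
  have hTT2 : T2 ≤ T := ((le_max_right _ _).trans (le_max_left _ _)).trans hT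
  have hTT3 : T3 ≤ T := ((le_max_left _ _).trans (le_max_right _ _)).trans hT
  have hTX0 : X0 ≤ T := ((le_max_right _ _).trans (le_max_right _ _)).trans hT
  have hT10 : 10 ≤ T := hT1.trans hTT1
  have hT1' : 1 ≤ T := by linarith
  have hTpos : 0 < T := by linarith
  have hL0 : 0 < Real.log T := Real.log_pos (by linarith)
  set Y := T * Real.log T with hY
  have hY0 : 0 < Y := by positivity
  have b1 := hsm T hTT2
  have b2 := (hN T hTT3).2
  have b3 := hfew T hTT1 (η / (8 * C)) (by positivity) Bd (q4 (3 * T) (by linarith))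
  set E := (EE_finite T (2 * T) (2 * Real.pi * β / Real.log T)).toFinset with hE
  have hEc : (E.card : ℝ) ≤ Y := by
    refine le_trans ?_ b2
    rw [← card_Ioc_NZ hT1']
    exact_mod_cast Finset.card_le_card EE_sub
  have hbad : ((E.filter (fun n => ord n ∈ Bd)).card : ℝ) ≤ η / 8 * Y := by
    refine (card_bad hRH hT1' (fun t => t ∈ Bd)).trans (b3.trans ?_)
    calc C * (η / (8 * C)) * (NN riemannZeta T (2 * T) : ℝ) ≤ C * (η / (8 * C)) * Y := by gcongr
      _ = η / 8 * Y := by field_simp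
  have hpt : ∀ n ∈ E, F (torusPt (al M) (ord n)) ≤
      Φ (sh (ord n)) + ε1 + (if ord n ∈ Bd then 1 else 0) := by
    intro n _
    split_ifs with h
    · have := hF1 (torusPt (al M) (ord n))
      have := hΦ0 (sh (ord n))
      linarith
    · have h1 := (abs_le.1 (q1 _ h)).1
      rw [hFa, add_zero]
      refine max_le (by linarith) ?_
      have := hΦ0 (sh (ord n))
      linarith
  have hsum := Finset.sum_le_sum hpt
  rw [Finset.sum_add_distrib, Finset.sum_add_distrib, Finset.sum_const, nsmul_eq_mul,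
    ← Finset.sum_filter, Finset.sum_const, nsmul_eq_mul, mul_one] at hsum
  have hsq : κ * (m - ε1) ^ 2 ≤ κ * (∫ x, F x ∂(haarT (pr M).card)) ^ 2 := by
    apply mul_le_mul_of_nonneg_left _ hκ.le
    exact pow_le_pow_left₀ (by linarith) hFm 2
  have hsq2 : κ * m ^ 2 - η / 4 ≤ κ * (m - ε1) ^ 2 := by
    have h1 : κ * ε1 * m ≤ κ * ε1 := mul_le_of_le_one_right (by positivity) hm1
    have h2 : 8 * (κ * ε1) ≤ η := by nlinarith
    nlinarith [mul_nonneg hκ.le (sq_nonneg ε1)]
  have hε1Y : (E.card : ℝ) * ε1 ≤ η / 8 * Y := by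
    have h1 : 8 * ε1 ≤ η := by nlinarith [mul_pos hκ hε10]
    calc (E.card : ℝ) * ε1 ≤ Y * ε1 := by gcongr
      _ ≤ Y * (η / 8) := by gcongr; linarith
      _ = _ := by ring
  have hlow : (κ * m ^ 2 - η / 4) * Y ≤ κ * (∫ x, F x ∂(haarT (pr M).card)) ^ 2 * Y := by
    apply mul_le_mul_of_nonneg_right _ hY0.le
    linarith
  nlinarith [mul_pos hη hY0]

end Pool.Agent.N748.UG
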